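import Pool.Agent.Q203.XS.Pert
import Pool.Agent.H343X.G4pre

/-!
# The archimedean bound at rational points close to the zeta values
-/

open Polynomial Pool.Agent.H337R2 Pool.Agent.H343X Filter Topology Pool.Agent.TH900.XM

namespace Pool.Agent.Q203.XS

noncomputable section

set_option autoImplicit false

/-- total archimedean bound at rational points close to the zeta values -/
theorem arch_pert' : ∀ ε : ℝ, 0 < ε → ∀ᶠ N : ℕ in atTop, ∀ n : ℕ, n = 24 * N + 1 → ∀ u : ℕ → ℚ,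
    Cl n u →
    DET n u (51 * (n - 1)) ≠ 0 →
    Real.log |((DET n u (51 * (n - 1)) : ℚ) : ℝ)| ≤
      5202 * (n : ℝ) ^ 2 * Real.log n + (JJ + ε) * (n : ℝ) ^ 2 := by
  intro ε hε
  obtain ⟨C, K, hC, hE⟩ := entry_pert'
  set c : ℝ := |Real.log 51 + Real.log C| + |JJ| with hc
  have hev := G4h.final_ev c (K + 1) ε hε
  have htd : Tendsto (fun N : ℕ => 24 * N + 1) atTop atTop := by
    apply tendsto_atTop_mono (fun N => _) tendsto_id
    intro N
    show N ≤ 24 * N + 1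
    omega
  filter_upwards [htd.eventually hev, eventually_ge_atTop 1, hE] with N hNev hN hEN n hn u hu hD
  have hm : 51 * (n - 1) = 1224 * N := by omega
  rw [hm] at hD ⊢
  rw [← hn] at hNev
  have hn1 : 1 ≤ n := by omega
  have hlog := G4h.log_det_le hC hN hn1 u (fun i hi => G4_monic hN i hi) (hEN n hn u hu) hD
  have hsum := G4h.sum_al (C := C) (K := K) (n := n) hN (G4_sum hN)
  have hn0 : (1 : ℝ) ≤ n := by exact_mod_cast hn1
  have hN0 : (1 : ℝ) ≤ N := by exact_mod_cast hN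
  have hnN : (n : ℝ) = 24 * N + 1 := by rw [hn]; push_cast; ring
  have hl : 0 ≤ Real.log n := Real.log_natCast_nonneg n
  -- log N = log (24 N) - log 24
  have hlN : Real.log (24 * (N : ℝ)) = Real.log 24 + Real.log N :=
    Real.log_mul (by norm_num) (by positivity)
  have hlNn : Real.log (24 * (N : ℝ)) ≤ Real.log n :=
    Real.log_le_log (by positivity) (by rw [hnN]; linarith)
  have q1 : 2996352 * (N : ℝ) ^ 2 * Real.log N ≤
      5202 * (n : ℝ) ^ 2 * Real.log n - 5202 * Real.log 24 * (576 * (N : ℝ) ^ 2) := by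
    have e1 : 2996352 * (N : ℝ) ^ 2 * Real.log N =
        5202 * (24 * (N : ℝ)) ^ 2 * Real.log (24 * (N : ℝ)) - 5202 * Real.log 24 * (576 * (N : ℝ) ^ 2) := by
      rw [hlN]; ring
    have e2 : 5202 * (24 * (N : ℝ)) ^ 2 * Real.log (24 * (N : ℝ)) ≤ 5202 * (n : ℝ) ^ 2 * Real.log n := by
      have a1 : 5202 * (24 * (N : ℝ)) ^ 2 ≤ 5202 * (n : ℝ) ^ 2 := by
        have : 24 * (N : ℝ) ≤ n := by rw [hnN]; linarith
        have h0 : (0 : ℝ) ≤ 24 * N := by positivity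
        nlinarith
      exact mul_le_mul a1 hlNn (Real.log_nonneg (by linarith)) (by positivity)
    linarith
  have q2 : JJ * (576 * (N : ℝ) ^ 2) = 612 * Lam * (N : ℝ) ^ 2 +
      (42268752 - 1224 * 78000) * (Real.log 2 / 2) * (N : ℝ) ^ 2 - 5202 * Real.log 24 * (576 * (N : ℝ) ^ 2) := by
    unfold JJ
    ring
  have q3 : JJ * (576 * (N : ℝ) ^ 2) ≤ JJ * (n : ℝ) ^ 2 + |JJ| * (51 * n) := by
    have e1 : (n : ℝ) ^ 2 - 576 * (N : ℝ) ^ 2 = 48 * N + 1 := by rw [hnN]; ring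
    have e2 : 48 * (N : ℝ) + 1 ≤ 51 * n := by rw [hnN]; linarith
    have e3 : JJ * (576 * (N : ℝ) ^ 2) = JJ * (n : ℝ) ^ 2 - JJ * (48 * N + 1) := by rw [← e1]; ring
    have e4 : - JJ * (48 * (N : ℝ) + 1) ≤ |JJ| * (51 * n) := by
      calc - JJ * (48 * (N : ℝ) + 1) ≤ |JJ| * (48 * N + 1) :=
            mul_le_mul_of_nonneg_right (neg_le_abs JJ) (by positivity)
        _ ≤ |JJ| * (51 * n) := mul_le_mul_of_nonneg_left e2 (abs_nonneg _)
    linarith
  have hm33 : ((1224 * N : ℕ) : ℝ) ≤ 51 * n := by push_cast; rw [hnN]; linarith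
  have hm0 : (0 : ℝ) < ((1224 * N : ℕ) : ℝ) := by exact_mod_cast (by omega : 0 < 1224 * N)
  have q4 : Real.log ((1224 * N : ℕ) : ℝ) ≤ Real.log 51 + Real.log n := by
    rw [← Real.log_mul (by norm_num) (by positivity)]
    exact Real.log_le_log hm0 hm33
  have q5 : ((1224 * N : ℕ) : ℝ) * Real.log ((1224 * N : ℕ) : ℝ) ≤
      ((1224 * N : ℕ) : ℝ) * (Real.log 51 + Real.log n) := mul_le_mul_of_nonneg_left q4 hm0.le
  have q6 : ((1224 * N : ℕ) : ℝ) * (Real.log 51 + Real.log C) ≤ 51 * n * |Real.log 51 + Real.log C| := by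
    calc _ ≤ ((1224 * N : ℕ) : ℝ) * |Real.log 51 + Real.log C| :=
          mul_le_mul_of_nonneg_left (le_abs_self _) hm0.le
      _ ≤ _ := mul_le_mul_of_nonneg_right hm33 (abs_nonneg _)
  have q7 : ((1224 * N : ℕ) : ℝ) * (((K : ℝ) + 1) * Real.log n) ≤ 51 * n * (((K : ℝ) + 1) * Real.log n) :=
    mul_le_mul_of_nonneg_right hm33 (by positivity)
  have hNev' : 51 * (n : ℝ) * (c + ((K : ℝ) + 1) * Real.log n) ≤ ε * (n : ℝ) ^ 2 := by
    have := hNev
    push_cast at this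
    exact this
  rw [hc] at hNev'
  push_cast at hlog q5 q6 q7
  have e5 : 51 * (n : ℝ) * (|Real.log 51 + Real.log C| + |JJ| + ((K : ℝ) + 1) * Real.log n) =
      51 * n * |Real.log 51 + Real.log C| + |JJ| * (51 * n) + 51 * n * (((K : ℝ) + 1) * Real.log n) := by ring
  rw [e5] at hNev'
  have e6 : (JJ + ε) * (n : ℝ) ^ 2 = JJ * (n : ℝ) ^ 2 + ε * (n : ℝ) ^ 2 := by ring
  rw [e6]
  nlinarith only [hlog, hsum, q1, q2, q3, q5, q6, q7, hNev']

end

end Pool.Agent.Q203.XS
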