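import Pool.Agent.Q203.XS.Key
import Pool.Agent.Q203.SM.Sel2

/-!
# A simultaneous measure of irrationality for `ζ(11), ζ(13), …, ζ(27)` with exponent `392`
-/

open Polynomial Pool.Agent.H337R2 Pool.Agent.H343X Filter Topology Pool.Agent.TH900.XM

namespace Pool.Agent.Q203.XS

noncomputable section

set_option autoImplicit false

/-- the measure for large denominators -/
theorem meas_large' : ∃ q0 : ℕ, ∀ q : ℕ, q0 ≤ q → ∀ P : ℕ → ℤ, ∃ l ∈ I9,
    1 / (q : ℝ) ^ 392 ≤ |zr (l + 8) - (P (l + 8) : ℝ) / q| := by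
  obtain ⟨n0, hkey⟩ := key'
  have hφ : ((Nat.totient 24 : ℕ) : ℝ) = 8 := by
    have : Nat.totient 24 = 8 := by decide
    rw [this]; norm_num
  have hpr := Pool.Agent.Q203.SM.select2 24 (by norm_num) 1 isUnit_one 11 51 (939 / 10) (8097 / 10000) (17 / 2)
    (823 / 10000) (1 / 1000000) (by norm_num) (by norm_num) (by norm_num) (by norm_num) (by norm_num) (by norm_num)
    (by rw [hφ]; norm_num) (by rw [hφ]; norm_num) (by rw [hφ]; norm_num) n0
  obtain ⟨q1, hq1⟩ := eventually_atTop.1 hpr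
  refine ⟨q1 + 1, fun q hq P => ?_⟩
  have hq0 : 0 < q := by omega
  have hqr : (0 : ℝ) < q := by exact_mod_cast hq0
  obtain ⟨n, q', B, hnp, hn1, hnn0, hnc, hnq, hB, hqq, hlq⟩ := hq1 q (by omega)
  have hnmod : n % 24 = 1 := by
    have h1 : ((n : ℕ) : ZMod 24) = ((1 : ℕ) : ZMod 24) := by rw [hn1, Nat.cast_one]
    rw [ZMod.natCast_eq_natCast_iff] at h1
    exact h1
  set u : ℕ → ℚ := fun l => if l ∈ I9 then (P (l + 8) : ℚ) / q else 0 with hu
  have hUI : Pool.Agent.H336R2.HD.UInt q u := by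
    refine ⟨hq0, fun i => ?_⟩
    have hq' : (q : ℚ) ≠ 0 := by exact_mod_cast hq0.ne'
    by_cases hi : i ∈ I9
    · refine ⟨P (i + 8), ?_⟩
      simp only [hu, if_pos hi]
      field_simp
    · refine ⟨0, ?_⟩
      simp only [hu, if_neg hi, mul_zero, Int.cast_zero]
  have hu0 : ∀ i, ¬ (i ∈ I9) → u i = 0 := by
    intro i hi
    simp only [hu, if_neg hi]
  have hB' : ∀ p ∈ B, p.Prime ∧ n < p ∧ 2 * p < 17 * n := by
    intro p hp
    obtain ⟨h1, h2, h3⟩ := hB p hp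
    refine ⟨h1, h2, ?_⟩
    have h4 : (2 : ℝ) * p < 17 * n := by linarith
    exact_mod_cast h4
  obtain ⟨l, hl, hlt⟩ := hkey n hnn0 hnp hnmod q q' B u hUI hu0 hnq hB' hqq hlq
  refine ⟨l, hl, ?_⟩
  have e1 : ((u l : ℚ) : ℝ) = (P (l + 8) : ℝ) / q := by
    simp only [hu, if_pos hl]
    push_cast
    rfl
  rw [e1] at hlt
  refine le_trans ?_ hlt.le
  have e2 : 1 / (q : ℝ) ^ 392 = Real.exp (-(392 * Real.log q)) := by
    rw [Real.exp_neg, one_div]
    congr 1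
    rw [← Real.exp_log (pow_pos hqr 392), Real.log_pow]
    norm_num
  rw [e2]
  apply Real.exp_le_exp.2
  have hL : 0 ≤ Real.log q := Real.log_natCast_nonneg q
  linarith

/-- **The simultaneous measure.** -/
theorem main' : ∃ c : ℝ, 0 < c ∧ ∀ (P : ℕ → ℤ) (q : ℕ), 0 < q → ∃ l ∈ I9,
    c / (q : ℝ) ^ 392 ≤ |zr (l + 8) - (P (l + 8) : ℝ) / q| := by
  obtain ⟨q0, h⟩ := meas_large'
  set b0 : ℕ := q0 + 1 with hb0
  have hb0R : (0 : ℝ) < b0 := by exact_mod_cast Nat.succ_pos q0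
  refine ⟨1 / (b0 : ℝ) ^ 392, by positivity, fun P q hq => ?_⟩
  have hqR : (0 : ℝ) < q := by exact_mod_cast hq
  obtain ⟨l, hl, h1⟩ := h (q * b0) (by
    have : b0 ≤ q * b0 := Nat.le_mul_of_pos_left b0 hq
    omega) (fun j => P j * b0)
  refine ⟨l, hl, ?_⟩
  push_cast at h1
  rw [mul_div_mul_right _ _ hb0R.ne'] at h1
  refine le_trans (le_of_eq ?_) h1
  rw [mul_pow, one_div, one_div, mul_inv, div_eq_mul_inv]
  ring

end

end Pool.Agent.Q203.XS
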