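import Pool.Agent.Q203.SM.Base
import Pool.Agent.TH900.XM.Rho
import Pool.Agent.H343X.G4m

/-!
# Sharper exponential bounds for the coefficients of the linear forms in `1, ζ(11), ζ(13), …, ζ(27)`

Every factor of the basis polynomials gets its own bound.
-/

open Polynomial Pool.Agent.H337R2 Pool.Agent.H343X Pool.Agent.TH900.XM Pool.Agent.Q203.SM

namespace Pool.Agent.Q203.XS

noncomputable section

set_option autoImplicit false

lemma SAx {n k : ℕ} {Q : ℚ[X]} {A : ℚ} (h : SA 18 n k Q A) :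
    AB (Q.natDegree : ℚ) (A * nu n ^ Q.natDegree) (TS (-(k : ℚ)) (Q.comp (xp n))) := h.2.2

lemma SA_qa' {n k N : ℕ} (hN : 4000 ≤ N) (hn : n = 24 * N + 1) (hk : k ≤ 18 * n) {a b : ℚ} (ha : 1 / 2 ≤ a)
    (hb : 0 ≤ b) (hb2 : b ≤ 200) (hab : b ^ 2 ≤ a * (a + 432) - 1) : SA 18 n k (qa N a b) (Mab 18 a b) := by
  have e : qa N a b = qaH 18 N a b := by
    unfold qa qaH
    push_cast
    rfl
  have hm := Pool.Agent.H343X.G4m.qa_monic N a b
  rw [e] at hm ⊢
  refine SA_qa (by norm_num) (by norm_num) hN hn hk ha hb hb2 ?_ hm.1 hm.2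
  push_cast
  linarith

/-- the bound of the stage `s`, part 1 -/
def A1 (s : ℕ) : ℚ := ∏ k ∈ Finset.range 6, Mab 18 (at1 k).1 (at1 k).2 ^ sg1 s k

/-- the bound of the stage `s`, part 2 -/
def A2 (s : ℕ) : ℚ := ∏ k ∈ Finset.range 12, Mab 18 (at2 k).1 (at2 k).2 ^ sg2 s k

lemma SA_C1 {n k N s : ℕ} (hN : 4000 ≤ N) (hn : n = 24 * N + 1) (hk : k ≤ 18 * n) :
    SA 18 n k (Pool.Agent.H343X.C1 N s) (A1 s) := by
  unfold Pool.Agent.H343X.C1 A1
  apply SA.prod
  intro κ hκ
  rw [Finset.mem_range] at hκ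
  apply SA.pow
  apply SA_qa' hN hn hk
  all_goals interval_cases κ <;> norm_num [at1, la1]

lemma SA_C2 {n k N s : ℕ} (hN : 4000 ≤ N) (hn : n = 24 * N + 1) (hk : k ≤ 18 * n) :
    SA 18 n k (Pool.Agent.H343X.C2 N s) (A2 s) := by
  unfold Pool.Agent.H343X.C2 A2
  apply SA.prod
  intro κ hκ
  rw [Finset.mem_range] at hκ
  apply SA.pow
  apply SA_qa' hN hn hk
  all_goals interval_cases κ <;> norm_num [at2, la2]

lemma SA_MU {n k N : ℕ} (hn : n = 24 * N + 1) (hk : k ≤ 18 * n) :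
    SA 18 n k (MU N) (57600 ^ (216 * N)) := by
  have h := SA.prod (h := 18) (n := n) (k := k) (Finset.range (24 * N)) (fun u => (X - C (xq (24 * N + 1) u)) ^ 9)
    (fun _ => (57600 : ℚ) ^ 9) (by
      intro u hu
      rw [Finset.mem_range] at hu
      apply SA.pow
      have hu2 : u ≤ n := by omega
      have hu3 : (u : ℚ) ≤ n := by exact_mod_cast hu2
      have hu0 : (0 : ℚ) ≤ u := by positivity
      have e : xq (24 * N + 1) u = (u : ℚ) * (u + 18 * n) := by
        unfold xq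
        rw [hn]
        push_cast
        ring
      rw [e]
      have h0 : (0 : ℚ) ≤ n := by positivity
      apply SA_lin (by norm_num) (by omega) hk (by norm_num)
      · have h1 : (u : ℚ) * (u + 18 * n) ≤ n * (n + 18 * n) := by
          apply mul_le_mul hu3 _ (by positivity) h0
          linarith
        have h2 : ((57600 : ℚ) - (12 * ((18 : ℕ) : ℚ)) ^ 2) * nu n = 19 * n ^ 2 := by
          unfold nu
          push_cast
          ring
        rw [h2]
        nlinarith [sq_nonneg (n : ℚ)]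
      · positivity)
  unfold MU
  have e : ∏ i ∈ Finset.range (24 * N), (57600 : ℚ) ^ 9 = 57600 ^ (216 * N) := by
    rw [Finset.prod_const, Finset.card_range, ← pow_mul]
    congr 1
    ring
  rw [e] at h
  exact h

/-- the bound of the basis polynomials, without the powers of `ν` -/
def AP (N i : ℕ) : ℚ :=
  if i < 216 * N then (∏ s ∈ Finset.range 4, A1 s ^ e1 N i s) * 46656 ^ 168
  else 57600 ^ (216 * N) * ((∏ s ∈ Finset.range 6, A2 s ^ e2 N (i - 216 * N) s) * 46656 ^ 168)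

lemma SA_X' {n k : ℕ} (hn : 1 ≤ n) (hk : k ≤ 18 * n) : SA 18 n k X 46656 := by
  have h := SA_X (h := 18) (n := n) (k := k) (by norm_num) hn hk
  norm_num at h
  exact h

lemma SA_PN {n k N : ℕ} (hN : 4000 ≤ N) (hn : n = 24 * N + 1) (hk : k ≤ 18 * n) (i : ℕ) :
    SA 18 n k (PN N i) (AP N i) := by
  have hX := SA_X' (n := n) (k := k) (by omega) hk
  have hXp : ∀ r, r < 168 → SA 18 n k (X ^ r) (46656 ^ 168) := by
    intro r hr
    exact (hX.pow r).mono (pow_le_pow_right₀ (by norm_num) (by omega))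
  unfold PN AP
  split_ifs
  · unfold P1
    exact (SA.prod _ _ _ fun s _ => (SA_C1 hN hn hk).pow _).mul (hXp _ (by omega))
  · unfold P2
    exact (SA_MU hn hk).mul ((SA.prod _ _ _ fun s _ => (SA_C2 hN hn hk).pow _).mul (hXp _ (by omega)))

lemma AP_nonneg (N i : ℕ) : 0 ≤ AP N i := by
  unfold AP A1 A2 Mab
  split_ifs <;> positivity

/-- the bound of the local expansions of the extra factor -/
lemma AB_EE' {n k N : ℕ} (hN : 4000 ≤ N) (hn : n = 24 * N + 1) (hk : k ≤ 18 * n) {i j : ℕ} (hi : i < 1224 * N)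
    (hj : j < 1224 * N) :
    AB ((112 + (i + j) : ℕ) : ℚ) ((46656 ^ 112 * (AP N i * AP N j)) * nu n ^ (112 + (i + j)))
      (TS (-(k : ℚ)) (EE n (PN N i * PN N j))) := by
  have hX := SA_X' (n := n) (k := k) (by omega) hk
  have h1 := (hX.pow 112).mul ((SA_PN hN hn hk i).mul (SA_PN hN hn hk j))
  have h2 : (X ^ 112 * (PN N i * PN N j) : ℚ[X]).natDegree = 112 + (i + j) := by
    rw [(hX.pow 112).1.natDegree_mul ((SA_PN hN hn hk i).mul (SA_PN hN hn hk j)).1,
      (SA_PN hN hn hk i).1.natDegree_mul (SA_PN hN hn hk j).1, natDegree_X_pow,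
      (G4_monic (by omega) i hi).2, (G4_monic (by omega) j hj).2]
  have h3 := SAx h1
  rw [h2] at h3
  exact h3

/-- the base of the bound of the zeros -/
def G0 : ℚ := ((9 / 7) ^ 18 * (7 / 2) ^ 4) ^ 9

lemma G0_pos : 0 < G0 := by unfold G0; positivity

lemma GW_eq : GW (7 / 2) 9 18 2 = G0 := by
  unfold GW G0
  norm_num

theorem rho_le' {n N : ℕ} (hN : 4000 ≤ N) (hn : n = 24 * N + 1) {i j : ℕ} (hi : i < 1224 * N)
    (hj : j < 1224 * N) (l : ℕ) :
    |rho n (PN N i * PN N j) l| ≤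
      (18 * n) * ((G0 * 2 ^ 240) ^ n * (20 * n) * ((46656 ^ 112 * (AP N i * AP N j)) * nu n ^ (112 + (i + j))) *
        (612 * n) ^ 20) := by
  have hn1 : (1 : ℚ) ≤ n := by exact_mod_cast (by omega : 1 ≤ n)
  have hν := nu_nonneg n
  have hG := G0_pos.le
  have hAi := AP_nonneg N i
  have hAj := AP_nonneg N j
  have key : ∀ k ∈ sN n, |pa (sN n) (muN n) (PPn n * EE n (PN N i * PN N j)) k l| ≤
      (G0 * 2 ^ 240) ^ n * (20 * n) * ((46656 ^ 112 * (AP N i * AP N j)) * nu n ^ (112 + (i + j))) *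
        (612 * n) ^ 20 := by
    intro k hk
    have hk' := hk
    rw [sN, ss, Finset.mem_Icc] at hk'
    have h1 := pa_mul_le' (7 / 2) (by norm_num) 9 18 2 n ds20 (by omega) (by decide) (by decide) hk
      (EE n (PN N i * PN N j)) ((112 + (i + j) : ℕ) : ℚ) _ (by positivity) (by positivity)
      (AB_EE' hN hn (by omega) hi hj) l
    refine h1.trans ?_
    have hsum : (List.map (fun d => 18 - 2 * d) ds20).sum = 240 := by decide
    have hlen : ds20.length = 20 := rfl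
    rw [hsum, hlen, GW_eq]
    have h2 : ((∑ m ∈ sN n, muN n m : ℕ) : ℚ) ≤ 360 * n := by
      have h3 : ∑ m ∈ ss 18 2 n, mu 18 n ds20 m ≤ (18 * n) * 20 := by
        calc _ ≤ ∑ m ∈ ss 18 2 n, 20 := Finset.sum_le_sum fun k _ => mu_le_length 18 n ds20 k
          _ = (ss 18 2 n).card * 20 := by rw [Finset.sum_const, smul_eq_mul]
          _ ≤ (18 * n) * 20 := by
              apply Nat.mul_le_mul_right
              unfold ss
              rw [Nat.card_Icc]
              omega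
      have h4 : ((∑ m ∈ ss 18 2 n, mu 18 n ds20 m : ℕ) : ℚ) ≤ ((18 * n * 20 : ℕ) : ℚ) := by exact_mod_cast h3
      push_cast at h4 ⊢
      linarith
    have h3 : ((112 + (i + j) : ℕ) : ℚ) ≤ 112 + 102 * n := by
      have : 112 + (i + j) ≤ 112 + 102 * n := by omega
      have h4 : ((112 + (i + j) : ℕ) : ℚ) ≤ ((112 + 102 * n : ℕ) : ℚ) := by exact_mod_cast this
      push_cast at h4 ⊢
      exact h4
    have h4 : (1 + 2 * ((9 : ℕ) : ℚ) * (((2 : ℕ) : ℚ) * (n : ℚ)) + ((∑ m ∈ sN n, muN n m : ℕ) : ℚ) +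
        ((112 + (i + j) : ℕ) : ℚ)) ≤ 612 * n := by
      norm_num at h2 h3 ⊢
      linarith
    have h5 : (((18 : ℕ) : ℚ) * n + 2) ≤ 20 * n := by
      push_cast
      linarith
    have h6 : 0 ≤ (1 + 2 * ((9 : ℕ) : ℚ) * (((2 : ℕ) : ℚ) * (n : ℚ)) + ((∑ m ∈ sN n, muN n m : ℕ) : ℚ) +
        ((112 + (i + j) : ℕ) : ℚ)) := by positivity
    have h7 : ((∑ m ∈ ss 18 2 n, mu 18 n ds20 m : ℕ) : ℚ) = ((∑ m ∈ sN n, muN n m : ℕ) : ℚ) := rfl
    rw [h7]
    gcongr
  unfold rho
  calc _ ≤ ∑ k ∈ sN n, |pa (sN n) (muN n) (PPn n * EE n (PN N i * PN N j)) k l| := Finset.abs_sum_le_sum_abs _ _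
    _ ≤ ∑ k ∈ sN n, (G0 * 2 ^ 240) ^ n * (20 * n) * ((46656 ^ 112 * (AP N i * AP N j)) * nu n ^ (112 + (i + j))) *
        (612 * n) ^ 20 := Finset.sum_le_sum key
    _ = ((sN n).card : ℚ) * ((G0 * 2 ^ 240) ^ n * (20 * n) *
        ((46656 ^ 112 * (AP N i * AP N j)) * nu n ^ (112 + (i + j))) * (612 * n) ^ 20) := by
        rw [Finset.sum_const, nsmul_eq_mul]
    _ ≤ _ := by
        apply mul_le_mul_of_nonneg_right _ (by positivity)
        have h4 : (sN n).card ≤ 18 * n := by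
          unfold sN ss
          rw [Nat.card_Icc]
          omega
        have h5 : ((sN n).card : ℚ) ≤ ((18 * n : ℕ) : ℚ) := by exact_mod_cast h4
        push_cast at h5
        exact h5

end

end Pool.Agent.Q203.XS
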